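import Pool.Agent.Work.MP_7ba843_gt.Loop
import Pool.Agent.Work.MP_7ba843_gt.Cells

open Set Topology
open scoped Manifold ContDiff

namespace Pool.Agent.Work.MP_7ba843_gt.Parked.Counterexample

open Pool.Agent.Work.MP_7ba843_gt

/-- There is a closed connected oriented smooth 4-manifold `X` with Euler characteristic `2`
and a smoothly embedded torus `S` (genus `1`, so `2 + g ≥ χ(X)`), bounding the smoothly embedded
solid torus `Φ (S¹ × D²)` and carrying the fundamental group of `X`, which is not the core of
any trisection of `X` (not even of a weak topological one). -/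
theorem result :
    ∃ (X : Type) (_ : TopologicalSpace X) (_ : ChartedSpace (EuclideanSpace ℝ (Fin 4)) X),
      IsManifold (𝓡 4) ∞ X ∧ T2Space X ∧ CompactSpace X ∧ ConnectedSpace X ∧
      OrientedAtlas X ∧ HasEulerChar X 2 ∧
      ∃ (Φ : Circle × ℂ → X) (S : Set X),
        Manifold.IsSmoothEmbedding ((𝓡 1).prod 𝓘(ℝ, ℂ)) (𝓡 4) ∞ Φ ∧
        S = Φ '' (univ ×ˢ Metric.sphere 0 1) ∧
        (∀ x : S, Function.Surjective
          (FundamentalGroup.map (⟨Subtype.val, continuous_subtype_val⟩ : C(S, X)) x)) ∧
        ¬ ∃ T : Fin 3 → Set X, WeakTrisection S T :=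
  ⟨Gr, inferInstance, inferInstance, inferInstance, inferInstance, inferInstance, connected_Gr,
    oriented_Gr, euler_Gr, torus, core, smoothEmbedding_torus, rfl, core_pi1, core_no⟩

end Pool.Agent.Work.MP_7ba843_gt.Parked.Counterexample
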